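import Pool.Agent.Y661.HE.Stm3

/-!
Job HE-PLY: counting maps by coincidence pattern is polynomial in the dimension.
-/

set_option autoImplicit false
set_option linter.all false

namespace Pool.Agent.Y529.HE.PLY

open Finset Pool.Agent.Y661.HE

theorem choose_poly (k : ℕ) : ∃ p : Polynomial ℚ, ∀ d : ℕ, (d.choose k : ℚ) = p.eval (d : ℚ) := by
  refine ⟨Polynomial.C ((k.factorial : ℚ)⁻¹) * descPochhammer ℚ k, fun d => ?_⟩
  rw [Polynomial.eval_mul, Polynomial.eval_C, descPochhammer_eval_eq_descFactorial,
    Nat.descFactorial_eq_factorial_mul_choose]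
  have : (k.factorial : ℚ) ≠ 0 := by exact_mod_cast k.factorial_ne_zero
  push_cast
  field_simp

open Classical in
theorem fib {L : ℕ} (F : ∀ d : ℕ, (Fin L → Fin d) → ℚ)
    (h : ∀ (d d' : ℕ) (j : Fin d ↪ Fin d') (i : Fin L → Fin d), F d' (j ∘ i) = F d i) (d : ℕ)
    (S : Finset (Fin d)) :
    ∑ i ∈ (univ : Finset (Fin L → Fin d)).filter (fun i => univ.image i = S), F d i =
      ∑ i ∈ (univ : Finset (Fin L → Fin #S)).filter (fun i => Function.Surjective i),
        F (#S) i := by
  let e : Fin #S ≃ S := S.equivFin.symm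
  let j : Fin #S ↪ Fin d := ⟨fun a => (e a).1, fun a b hab => e.injective (Subtype.ext hab)⟩
  symm
  refine Finset.sum_nbij (fun i => j ∘ i) ?_ ?_ ?_ ?_
  · intro i hi
    rw [mem_filter] at hi ⊢
    refine ⟨mem_univ _, ?_⟩
    ext x
    simp only [mem_image, mem_univ, true_and]
    constructor
    · rintro ⟨l, rfl⟩
      exact (e (i l)).2
    · intro hx
      obtain ⟨l, hl⟩ := hi.2 (e.symm ⟨x, hx⟩)
      refine ⟨l, ?_⟩
      show (e (i l)).1 = x
      rw [hl, Equiv.apply_symm_apply]
  · intro i _ i' _ hii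
    funext l
    exact j.injective (congrFun hii l)
  · intro i hi
    rw [mem_coe, mem_filter] at hi
    have hm : ∀ l, i l ∈ S := by
      intro l
      rw [← hi.2]
      exact mem_image_of_mem _ (mem_univ _)
    refine ⟨fun l => e.symm ⟨i l, hm l⟩, ?_, ?_⟩
    · rw [mem_coe, mem_filter]
      refine ⟨mem_univ _, fun a => ?_⟩
      have h1 : (e a).1 ∈ univ.image i := by rw [hi.2]; exact (e a).2
      obtain ⟨l, -, hl⟩ := mem_image.1 h1
      refine ⟨l, ?_⟩
      show e.symm ⟨i l, hm l⟩ = a
      rw [Equiv.symm_apply_eq]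
      exact Subtype.ext hl
    · funext l
      show (e (e.symm ⟨i l, hm l⟩)).1 = i l
      rw [Equiv.apply_symm_apply]
  · intro i _
    exact (h _ _ j i).symm

theorem main : S_PLY := by
  classical
  intro L F h
  let c : ℕ → ℚ := fun k =>
    ∑ i ∈ (univ : Finset (Fin L → Fin k)).filter (fun i => Function.Surjective i), F k i
  have hc : ∀ k, L < k → c k = 0 := by
    intro k hk
    refine Finset.sum_eq_zero fun i hi => ?_
    rw [mem_filter] at hi
    have := Fintype.card_le_of_surjective i hi.2
    rw [Fintype.card_fin, Fintype.card_fin] at this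
    omega
  choose p hp using choose_poly
  refine ⟨∑ k ∈ range (L + 1), p k * Polynomial.C (c k), fun d => ?_⟩
  have h1 : ∑ i : Fin L → Fin d, F d i = ∑ S : Finset (Fin d), c #S := by
    rw [← Finset.sum_fiberwise (univ : Finset (Fin L → Fin d)) (fun i => univ.image i) (F d)]
    exact Finset.sum_congr rfl fun S _ => fib F h d S
  have h2 : ∑ S : Finset (Fin d), c #S = ∑ k ∈ range (d + 1), (d.choose k : ℚ) * c k := by
    rw [← Finset.powerset_univ, Finset.sum_powerset_apply_card c]
    simp only [Finset.card_univ, Fintype.card_fin, nsmul_eq_mul]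
  have h3 : ∑ k ∈ range (d + 1), (d.choose k : ℚ) * c k =
      ∑ k ∈ range (L + 1), (d.choose k : ℚ) * c k := by
    have ha : ∑ k ∈ range (d + 1), (d.choose k : ℚ) * c k =
        ∑ k ∈ range (max L d + 1), (d.choose k : ℚ) * c k := by
      refine Finset.sum_subset (range_subset_range.2 (by omega)) fun k _ hk => ?_
      rw [mem_range, not_lt] at hk
      rw [Nat.choose_eq_zero_of_lt (by omega)]
      simp
    have hb : ∑ k ∈ range (L + 1), (d.choose k : ℚ) * c k =
        ∑ k ∈ range (max L d + 1), (d.choose k : ℚ) * c k := by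
      refine Finset.sum_subset (range_subset_range.2 (by omega)) fun k _ hk => ?_
      rw [mem_range, not_lt] at hk
      rw [hc k (by omega), mul_zero]
    rw [ha, hb]
  rw [h1, h2, h3, Polynomial.eval_finset_sum]
  refine Finset.sum_congr rfl fun k _ => ?_
  rw [Polynomial.eval_mul, Polynomial.eval_C, hp k d]

end Pool.Agent.Y529.HE.PLY
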