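import Pool.Agent.Y661.HE.Stm2

/-!
Job HE-EIG: the walk is local, and eigenfunctions against the walk.
-/

set_option autoImplicit false
set_option linter.all false

open scoped BigOperators

namespace Pool.Agent.Y529.HE.EIG

open Pool.Agent.Y661.HE
open Pool.Agent.H12R2.And (V ee Q pot PP Dep Good mem_Q self_mem_Q Q_mono Q_trans)
open Pool.Agent.H4R2.HD (Av Gn ind)

variable {d : ℕ}

theorem nb1 {z x : V d} {n : ℕ} (h : x ∉ Q z (n + 1)) (i : Fin d) : x + ee i ∉ Q z n := by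
  intro h1
  refine h (Q_trans h1 ?_)
  rw [mem_Q]
  intro j
  have e : x j - (x + ee i) j = -(ee i : V d) j := by simp
  rw [e, abs_neg]
  by_cases hj : j = i
  · subst hj; simp
  · simp [Pi.single_apply, hj]

theorem nb2 {z x : V d} {n : ℕ} (h : x ∉ Q z (n + 1)) (i : Fin d) : x - ee i ∉ Q z n := by
  intro h1
  refine h (Q_trans h1 ?_)
  rw [mem_Q]
  intro j
  have e : x j - (x - ee i) j = (ee i : V d) j := by simp
  rw [e]
  by_cases hj : j = i
  · subst hj; simp
  · simp [Pi.single_apply, hj]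

theorem tlo : S_TLO := by
  intro d W e b z n
  induction n with
  | zero =>
    intro x hx
    have h : x ≠ z := fun h => hx (by rw [h]; exact self_mem_Q z 0)
    show ind z x = 0
    unfold ind
    rw [if_neg h]
  | succ n ih =>
    intro x hx
    rw [Function.iterate_succ_apply']
    have h0 : ((TT W e b)^[n] (ind z)) x = 0 := ih x fun h => hx (Q_mono (Nat.le_succ n) h)
    have h1 : ∀ i : Fin d, ((TT W e b)^[n] (ind z)) (x + ee i) = 0 := fun i => ih _ (nb1 hx i)
    have h2 : ∀ i : Fin d, ((TT W e b)^[n] (ind z)) (x - ee i) = 0 := fun i => ih _ (nb2 hx i)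
    unfold TT Lp
    have h3 : ∑ i : Fin d, (((TT W e b)^[n] (ind z)) (x + ee i) +
        ((TT W e b)^[n] (ind z)) (x - ee i)) = 0 := by
      refine Finset.sum_eq_zero fun i _ => ?_
      rw [h1, h2, add_zero]
    unfold TT Lp at h0 h3
    rw [h0, h3]
    simp

/-- finitely supported functions are summable against everything -/
theorem fs {f : V d → ℝ} {z : V d} {n : ℕ} (hf : ∀ x, x ∉ Q z n → f x = 0) (u : V d → ℂ) :
    Summable fun x => (f x : ℂ) * u x := by
  refine summable_of_ne_finset_zero (s := Q z n) fun x hx => ?_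
  rw [hf x hx]
  simp

theorem fsh {f : V d → ℝ} {z : V d} {n : ℕ} (hf : ∀ x, x ∉ Q z n → f x = 0) (a : V d)
    (u : V d → ℂ) : (Summable fun x => (f (x + a) : ℂ) * u x) ∧
      ∑' x, (f (x + a) : ℂ) * u x = ∑' x, (f x : ℂ) * u (x - a) := by
  have h := fs hf (fun x => u (x - a))
  have e : (fun x => (f (x + a) : ℂ) * u x) =
      (fun x => (f x : ℂ) * u (x - a)) ∘ (Equiv.addRight a) := by
    funext x
    simp
  constructor
  · rw [e]
    exact (Equiv.summable_iff (Equiv.addRight a)).2 h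
  · rw [e]
    exact Equiv.tsum_eq (Equiv.addRight a) (fun x => (f x : ℂ) * u (x - a))

/-- one step -/
theorem step (W : V d → ℝ) (e b E' : ℝ) (u : V d → ℂ) (hb : b ≠ 0)
    (hu : ∀ x, 2 * (d : ℂ) * u x - ∑ i : Fin d, (u (x + ee i) + u (x - ee i)) + (W x : ℂ) * u x =
      (E' : ℂ) * u x) {f : V d → ℝ} {z : V d} {n : ℕ} (hf : ∀ x, x ∉ Q z n → f x = 0) :
    ∑' x, (TT W e b f x : ℂ) * u x = (1 - (E' - e) / b : ℝ) * ∑' x, (f x : ℂ) * u x := by
  have s0 := fs hf u
  have s1 : ∀ i : Fin d, _ := fun i => fsh hf (ee i) u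
  have s2 : ∀ i : Fin d, _ := fun i => fsh hf (-(ee i)) u
  have sW := fs hf (fun x => ((W x - e : ℝ) : ℂ) * u x)
  have e1 : ∀ x, (TT W e b f x : ℂ) * u x = (f x : ℂ) * u x -
      (1 / b : ℂ) * ((2 * (d : ℂ)) * ((f x : ℂ) * u x) -
        ∑ i : Fin d, ((f (x + ee i) : ℂ) * u x + (f (x + -(ee i)) : ℂ) * u x) +
        (f x : ℂ) * (((W x - e : ℝ) : ℂ) * u x)) := by
    intro x
    unfold TT Lp
    push_cast
    rw [show (∑ i : Fin d, ((f (x + ee i) : ℂ) * u x + (f (x + -(ee i)) : ℂ) * u x)) =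
      (∑ i : Fin d, ((f (x + ee i) : ℂ) + (f (x - ee i) : ℂ))) * u x by
        rw [Finset.sum_mul]
        refine Finset.sum_congr rfl fun i _ => ?_
        rw [← sub_eq_add_neg]
        ring]
    have hb' : (b : ℂ) ≠ 0 := by exact_mod_cast hb
    field_simp
  have hs : HasSum (fun x => ∑ i : Fin d, ((f (x + ee i) : ℂ) * u x +
      (f (x + -(ee i)) : ℂ) * u x)) (∑ i : Fin d, (∑' x, (f x : ℂ) * u (x - ee i) +
        ∑' x, (f x : ℂ) * u (x - -(ee i)))) := by
    refine hasSum_sum fun i _ => ?_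
    have h1 := (s1 i).1.hasSum
    have h2 := (s2 i).1.hasSum
    rw [(s1 i).2] at h1
    rw [(s2 i).2] at h2
    exact h1.add h2
  have hs' : ∑ i : Fin d, (∑' x, (f x : ℂ) * u (x - ee i) + ∑' x, (f x : ℂ) * u (x - -(ee i))) =
      ∑' x, (f x : ℂ) * ∑ i : Fin d, (u (x + ee i) + u (x - ee i)) := by
    have e2 : ∀ x, (f x : ℂ) * ∑ i : Fin d, (u (x + ee i) + u (x - ee i)) =
        ∑ i : Fin d, ((f x : ℂ) * u (x - ee i) + (f x : ℂ) * u (x - -(ee i))) := by
      intro x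
      rw [Finset.mul_sum]
      refine Finset.sum_congr rfl fun i _ => ?_
      rw [sub_neg_eq_add]
      ring
    rw [tsum_congr e2, Summable.tsum_finsetSum (fun i _ =>
      (fs hf fun x => u (x - ee i)).add (fs hf fun x => u (x - -(ee i))))]
    refine Finset.sum_congr rfl fun i _ => ?_
    rw [Summable.tsum_add (fs hf fun x => u (x - ee i)) (fs hf fun x => u (x - -(ee i)))]
  have sE := fs hf (fun x => ∑ i : Fin d, (u (x + ee i) + u (x - ee i)))
  rw [tsum_congr e1]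
  have h1 := (s0.hasSum).sub (((((s0.hasSum).mul_left (2 * (d : ℂ))).sub hs).add
    sW.hasSum).mul_left (1 / b : ℂ))
  rw [h1.tsum_eq, hs']
  have e3 : ∑' x, (f x : ℂ) * (((W x - e : ℝ) : ℂ) * u x) =
      ((E' - e : ℝ) : ℂ) * (∑' x, (f x : ℂ) * u x) - 2 * (d : ℂ) * (∑' x, (f x : ℂ) * u x) +
        ∑' x, (f x : ℂ) * ∑ i : Fin d, (u (x + ee i) + u (x - ee i)) := by
    rw [← tsum_mul_left, ← tsum_mul_left, ← Summable.tsum_sub (s0.mul_left _) (s0.mul_left _),
      ← Summable.tsum_add ((s0.mul_left _).sub (s0.mul_left _)) sE]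
    refine tsum_congr fun x => ?_
    have h2 := hu x
    push_cast
    linear_combination (f x : ℂ) * h2
  rw [e3]
  push_cast
  ring

theorem main : S_EIG := by
  intro d W e b E' z n u hb hs hu
  have hind : ∀ n, ∑' x, (((TT W e b)^[n] (ind z)) x : ℂ) * u x =
      ((1 - (E' - e) / b) ^ n : ℝ) * u z := by
    intro n
    induction n with
    | zero =>
      rw [tsum_eq_single z]
      · show ((ind z z : ℝ) : ℂ) * u z = _
        unfold ind
        simp
      · intro x hx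
        show ((ind z x : ℝ) : ℂ) * u x = 0
        unfold ind
        simp [hx]
    | succ n ih =>
      rw [Function.iterate_succ_apply', step W e b E' u hb hu (tlo W e b z n), ih, pow_succ]
      push_cast
      ring
  have h1 := hind n
  rw [tsum_eq_sum (s := Q z n) (fun x hx => by rw [tlo W e b z n x hx]; simp)] at h1
  have h2 : ‖∑ x ∈ Q z n, (((TT W e b)^[n] (ind z)) x : ℂ) * u x‖ ≤
      ∑ x ∈ Q z n, |((TT W e b)^[n] (ind z)) x| * ‖u x‖ := by
    refine (norm_sum_le _ _).trans (le_of_eq (Finset.sum_congr rfl fun x _ => ?_))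
    rw [norm_mul, Complex.norm_real, Real.norm_eq_abs]
  have h3 : ‖∑ x ∈ Q z n, (((TT W e b)^[n] (ind z)) x : ℂ) * u x‖ ^ 2 =
      ‖u z‖ ^ 2 * ((1 - (E' - e) / b) ^ n) ^ 2 := by
    rw [h1, norm_mul, Complex.norm_real, mul_pow, Real.norm_eq_abs, sq_abs]
    ring
  rw [← h3]
  calc ‖∑ x ∈ Q z n, (((TT W e b)^[n] (ind z)) x : ℂ) * u x‖ ^ 2
      ≤ (∑ x ∈ Q z n, |((TT W e b)^[n] (ind z)) x| * ‖u x‖) ^ 2 :=
        pow_le_pow_left₀ (norm_nonneg _) h2 2
    _ ≤ (∑ x ∈ Q z n, |((TT W e b)^[n] (ind z)) x| ^ 2) * ∑ x ∈ Q z n, ‖u x‖ ^ 2 :=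
        Finset.sum_mul_sq_le_sq_mul_sq _ _ _
    _ ≤ (∑ x ∈ Q z n, (((TT W e b)^[n] (ind z)) x) ^ 2) * ∑' x, ‖u x‖ ^ 2 := by
        simp only [sq_abs]
        exact mul_le_mul_of_nonneg_left (hs.sum_le_tsum _ fun x _ => sq_nonneg _)
          (Finset.sum_nonneg fun x _ => sq_nonneg _)

end Pool.Agent.Y529.HE.EIG
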